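import Mathlib

set_option autoImplicit false

open Polynomial

namespace Pool.Agent.Results.MP_14f819_nt.OddIndexClassification

/-- The Lucas polynomials: `L_0 = 2`, `L_1 = X`, `L_{n+2} = X L_{n+1} + L_n`. -/
noncomputable def lucas : ℕ → ℤ[X]
  | 0 => 2
  | 1 => X
  | (n + 2) => X * lucas (n + 1) + lucas n

/-- For `f` monic irreducible over `ℤ`: with `K = ℚ[X]/(f)` and `θ` the class of `X`,
the subring `ℤ[θ]` equals the ring of integers of `K`. -/
def IsMonogenic (f : ℤ[X]) : Prop :=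
  Algebra.adjoin ℤ {AdjoinRoot.root (f.map (Int.castRingHom ℚ))} =
    integralClosure ℤ (AdjoinRoot (f.map (Int.castRingHom ℚ)))

lemma aeval_lucas {F : Type*} [Field F] (ζ : F) (hζ : ζ ≠ 0) (k : ℕ) :
    aeval (ζ - ζ⁻¹) (lucas k) = ζ ^ k + (-ζ⁻¹) ^ k := by
  induction k using Nat.strong_induction_on with
  | _ k ih =>
    match k with
    | 0 =>
      simp only [lucas, pow_zero]
      rw [show (2 : ℤ[X]) = C 2 from rfl, aeval_C]
      norm_num
    | 1 => simp [lucas, sub_eq_add_neg]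
    | (m + 2) =>
      have h1 := ih (m + 1) (by omega)
      have h0 := ih m (by omega)
      simp only [lucas, map_add, map_mul, aeval_X, h1, h0]
      have hz : ζ * ζ⁻¹ = 1 := mul_inv_cancel₀ hζ
      generalize ζ⁻¹ = ξ at *
      have e1 : ζ ^ (m + 1) = ζ ^ m * ζ := pow_succ _ _
      have e2 : (-ξ) ^ (m + 1) = (-ξ) ^ m * (-ξ) := pow_succ _ _
      have e3 : ζ ^ (m + 2) = ζ ^ m * ζ * ζ := by rw [pow_add]; ring
      have e4 : (-ξ) ^ (m + 2) = (-ξ) ^ m * (-ξ) * (-ξ) := by rw [pow_add]; ring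
      rw [e1, e2, e3, e4]
      generalize (-ξ) ^ m = b
      generalize ζ ^ m = a
      linear_combination (-a - b) * hz

/-- Every complex root of `L_n`, `n` odd, is `ζ - ζ⁻¹` for an `n`-th root of unity `ζ`. -/
lemma root_param {n : ℕ} (hn : Odd n) (z : ℂ) (hz : aeval z (lucas n) = 0) :
    ∃ ζ : ℂ, ζ ^ n = 1 ∧ z = ζ - ζ⁻¹ := by
  obtain ⟨s, hs⟩ := IsAlgClosed.exists_pow_nat_eq (z ^ 2 + 4) (n := 2) (by norm_num)
  obtain ⟨ζ, hζdef⟩ : ∃ ζ : ℂ, ζ = (z + s) / 2 := ⟨_, rfl⟩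
  have hq : ζ * (ζ - z) = 1 := by
    rw [hζdef]; linear_combination (1 / 4 : ℂ) * hs
  have hζ0 : ζ ≠ 0 := by
    rintro h
    rw [h] at hq
    simp at hq
  have hinv : ζ⁻¹ = ζ - z := inv_eq_of_mul_eq_one_right hq
  have hzz : z = ζ - ζ⁻¹ := by rw [hinv]; ring
  have hL : ζ ^ n + (-ζ⁻¹) ^ n = 0 := by
    rw [← aeval_lucas ζ hζ0 n, ← hzz]; exact hz
  rw [hn.neg_pow, inv_pow] at hL
  have hne : ζ ^ n ≠ 0 := pow_ne_zero _ hζ0
  have hsq : (ζ ^ n) ^ 2 = 1 := by
    have := congrArg (fun t => t * ζ ^ n) hL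
    simp only [add_mul, neg_mul, zero_mul, inv_mul_cancel₀ hne] at this
    linear_combination this
  rcases sq_eq_one_iff.mp hsq with h | h
  · exact ⟨ζ, h, hzz⟩
  · refine ⟨-ζ⁻¹, ?_, ?_⟩
    · rw [hn.neg_pow, inv_pow, h]; norm_num
    · rw [inv_neg, inv_inv, hzz]; ring

/-- `g(x) - g(-x)` is twice an integral element, for integral `x`. -/
lemma diff_even (x : ℂ) (hx : IsIntegral ℤ x) (g : ℤ[X]) :
    ∃ w : ℂ, IsIntegral ℤ w ∧ aeval x g - aeval (-x) g = 2 * w := by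
  induction g using Polynomial.induction_on' with
  | add p q hp hq =>
    obtain ⟨w1, h1, e1⟩ := hp
    obtain ⟨w2, h2, e2⟩ := hq
    refine ⟨w1 + w2, h1.add h2, ?_⟩
    rw [map_add, map_add]
    linear_combination e1 + e2
  | monomial k a =>
    rcases Nat.even_or_odd k with hk | hk
    · refine ⟨0, isIntegral_zero, ?_⟩
      rw [aeval_monomial, aeval_monomial, hk.neg_pow]; ring
    · refine ⟨algebraMap ℤ ℂ a * x ^ k, (isIntegral_algebraMap).mul (hx.pow k), ?_⟩
      rw [aeval_monomial, aeval_monomial, hk.neg_pow]; ring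

/-- The key point: the integer `ζ` of `ℚ(ζ - ζ⁻¹)` is not in `ℤ[ζ - ζ⁻¹]`. -/
lemma not_eval {n : ℕ} (hn : Odd n) (ζ : ℂ) (hζ : ζ ^ n = 1) (hz : ζ - ζ⁻¹ ≠ 0) (g : ℤ[X]) :
    aeval (ζ - ζ⁻¹) g ≠ ζ := by
  intro hg
  have hn0 : n ≠ 0 := by rintro rfl; simp at hn
  have hζ0 : ζ ≠ 0 := by rintro rfl; simp [hn0] at hζ
  have hnorm : ‖ζ‖ = 1 := Complex.norm_eq_one_of_pow_eq_one hζ hn0
  have hconj : (starRingEnd ℂ) ζ = ζ⁻¹ := by
    rw [Complex.inv_def, Complex.normSq_eq_norm_sq, hnorm]; simp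
  have hconj' : (starRingEnd ℂ) ζ⁻¹ = ζ := by
    rw [← hconj, Complex.conj_conj]
  -- apply complex conjugation
  have hg2 : aeval (-(ζ - ζ⁻¹)) g = ζ⁻¹ := by
    have h := congrArg (starRingEnd ℂ) hg
    rw [hconj] at h
    have h3 : (starRingEnd ℂ) (aeval (ζ - ζ⁻¹) g) = aeval ((starRingEnd ℂ) (ζ - ζ⁻¹)) g := by
      rw [aeval_def, aeval_def, hom_eval₂]
      congr 1
      exact RingHom.ext_int _ _
    rw [h3, map_sub, hconj, hconj'] at h
    rw [neg_sub]
    exact h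
  have hζint : IsIntegral ℤ ζ := by
    refine IsIntegral.of_pow (Nat.pos_of_ne_zero hn0) ?_
    rw [hζ]; exact isIntegral_one
  have hζiint : IsIntegral ℤ ζ⁻¹ := by
    refine IsIntegral.of_pow (Nat.pos_of_ne_zero hn0) ?_
    rw [inv_pow, hζ, inv_one]; exact isIntegral_one
  obtain ⟨w, hw, hw2⟩ := diff_even (ζ - ζ⁻¹) (hζint.sub hζiint) g
  rw [hg, hg2] at hw2
  -- `ζ ^ 2 - 1 = 2 * ζ * w`
  have hω : ζ ^ 2 - 1 = 2 * (ζ * w) := by
    have : ζ * ζ⁻¹ = 1 := mul_inv_cancel₀ hζ0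
    linear_combination ζ * hw2 + this
  have hω1 : ζ ^ 2 - 1 ≠ 0 := by
    intro h
    apply hz
    have : ζ * ζ⁻¹ = 1 := mul_inv_cancel₀ hζ0
    have h' : ζ * (ζ - ζ⁻¹) = 0 := by linear_combination h - this
    rcases mul_eq_zero.mp h' with h'' | h''
    · exact absurd h'' hζ0
    · exact h''
  have hgeom : ∑ j ∈ Finset.range n, (ζ ^ 2) ^ j = 0 := by
    have h := geom_sum_mul (ζ ^ 2) n
    rw [← pow_mul, mul_comm 2 n, pow_mul, hζ, one_pow, sub_self] at h
    exact (mul_eq_zero.mp h).resolve_right hω1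
  -- each `ω ^ j - 1` is `2` times an integer
  have hj : ∀ j : ℕ, ∃ v : ℂ, IsIntegral ℤ v ∧ (ζ ^ 2) ^ j - 1 = 2 * v := by
    intro j
    refine ⟨(∑ i ∈ Finset.range j, (ζ ^ 2) ^ i) * (ζ * w),
      (IsIntegral.sum _ fun i _ => (hζint.pow 2).pow i).mul (hζint.mul hw), ?_⟩
    have h := geom_sum_mul (ζ ^ 2) j
    rw [hω] at h
    linear_combination -h
  choose v hv hv2 using hj
  have hsum : (n : ℂ) = 2 * (-∑ j ∈ Finset.range n, v j) := by
    have h : ∑ j ∈ Finset.range n, ((ζ ^ 2) ^ j - 1) = ∑ j ∈ Finset.range n, 2 * v j :=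
      Finset.sum_congr rfl fun j _ => hv2 j
    rw [Finset.sum_sub_distrib, hgeom, ← Finset.mul_sum] at h
    simp only [Finset.sum_const, Finset.card_range, nsmul_eq_mul, mul_one] at h
    linear_combination -h
  have hhalf : IsIntegral ℤ (((n : ℚ) / 2 : ℚ) : ℂ) := by
    have : (((n : ℚ) / 2 : ℚ) : ℂ) = -∑ j ∈ Finset.range n, v j := by
      push_cast
      rw [hsum]; ring
    rw [this]
    exact (IsIntegral.sum _ fun i _ => hv i).neg
  have hhalf' : IsIntegral ℤ ((n : ℚ) / 2 : ℚ) := by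
    have := (isIntegral_algebraMap_iff (R := ℤ) (A := ℚ) (B := ℂ) (x := ((n : ℚ) / 2 : ℚ))
      (algebraMap ℚ ℂ).injective).mp (by simpa using hhalf)
    exact this
  obtain ⟨m, hm⟩ := IsIntegrallyClosed.isIntegral_iff.mp hhalf'
  obtain ⟨r, hr⟩ := hn
  have h2 : (n : ℚ) = 2 * (m : ℚ) := by
    have : (m : ℚ) = (n : ℚ) / 2 := by simpa using hm
    rw [this]; ring
  have h3 : (n : ℤ) = 2 * m := by exact_mod_cast h2
  omega

lemma aeval_ne_zero_of_not_X {f : ℤ[X]} (hf : f.Monic) (hirr : Irreducible f) (hX : f ≠ X)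
    (z : ℂ) (hz : aeval z f = 0) : z ≠ 0 := by
  rintro rfl
  have h0 : f.coeff 0 = 0 := by
    have : aeval (0 : ℂ) f = ((f.coeff 0 : ℤ) : ℂ) := by
      rw [← coeff_zero_eq_aeval_zero']; simp
    rw [this] at hz
    exact_mod_cast hz
  have hdvd : X ∣ f := X_dvd_iff.mpr h0
  have hass : Associated (X : ℤ[X]) f := (irreducible_X).associated_of_dvd hirr hdvd
  exact hX (eq_of_monic_of_associated monic_X hf hass).symm

/-- No monic irreducible factor of `L_n`, `n` odd, other than `X`, is monogenic. -/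
lemma not_monogenic {n : ℕ} (hn : Odd n) {f : ℤ[X]} (hf : f.Monic) (hirr : Irreducible f)
    (hdvd : f ∣ lucas n) (hX : f ≠ X) : ¬ IsMonogenic f := by
  intro hmono
  -- the field
  have hirrQ : Irreducible (f.map (Int.castRingHom ℚ)) :=
    (IsPrimitive.Int.irreducible_iff_irreducible_map_cast hf.isPrimitive).mp hirr
  have : Fact (Irreducible (f.map (Int.castRingHom ℚ))) := ⟨hirrQ⟩
  -- a complex root
  have hdeg : (f.map (Int.castRingHom ℚ)).degree ≠ 0 := fun h => by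
    exact hirrQ.not_isUnit (isUnit_iff_degree_eq_zero.mpr h)
  obtain ⟨z, hz⟩ := IsAlgClosed.exists_aeval_eq_zero ℂ (f.map (Int.castRingHom ℚ)) hdeg
  have hz' : aeval z f = 0 := by
    rw [aeval_def, eval₂_map] at hz
    rw [aeval_def, ← hz]
    congr 1
  have hz0 : z ≠ 0 := aeval_ne_zero_of_not_X hf hirr hX z hz'
  have hL : aeval z (lucas n) = 0 := by
    obtain ⟨q, hq⟩ := hdvd
    rw [hq, map_mul, hz', zero_mul]
  obtain ⟨ζ, hζ, hzζ⟩ := root_param hn z hL
  have hn0 : n ≠ 0 := by rintro rfl; simp at hn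
  have hζ0 : ζ ≠ 0 := by rintro rfl; simp [hn0] at hζ
  -- embedding of the field in `ℂ`
  let φ : AdjoinRoot (f.map (Int.castRingHom ℚ)) →ₐ[ℚ] ℂ :=
    AdjoinRoot.liftAlgHom _ (Algebra.ofId ℚ ℂ) z (by simpa [aeval_def] using hz)
  have hφroot : φ (AdjoinRoot.root _) = z := AdjoinRoot.liftAlgHom_root _ _ _ _
  have hφZ : ∀ p : ℤ[X], φ (aeval (AdjoinRoot.root (f.map (Int.castRingHom ℚ))) p) = aeval z p := by
    intro p
    have : φ (aeval (AdjoinRoot.root (f.map (Int.castRingHom ℚ))) p) =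
        aeval (φ (AdjoinRoot.root (f.map (Int.castRingHom ℚ)))) p := by
      rw [aeval_def, aeval_def]
      rw [show φ (eval₂ (algebraMap ℤ _) (AdjoinRoot.root (f.map (Int.castRingHom ℚ))) p) =
        (φ : _ →+* ℂ) (eval₂ (algebraMap ℤ _) (AdjoinRoot.root (f.map (Int.castRingHom ℚ))) p) from rfl,
        hom_eval₂]
      congr 1
      exact RingHom.ext_int _ _
    rw [this, hφroot]
  -- the element `ζ` in the field
  obtain ⟨α, hα⟩ : ∃ α : AdjoinRoot (f.map (Int.castRingHom ℚ)), φ α = ζ := by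
    refine ⟨(aeval (AdjoinRoot.root _) (X + lucas (n + 1))) * (algebraMap ℚ _ (1 / 2)), ?_⟩
    rw [map_mul, hφZ, map_add, aeval_X, hzζ, aeval_lucas ζ hζ0, AlgHom.commutes]
    have hne : Even (n + 1) := hn.add_one
    rw [hne.neg_pow, inv_pow, pow_succ, hζ, one_mul]
    simp
    ring
  have hαint : IsIntegral ℤ α := by
    have hζint : IsIntegral ℤ ζ := by
      refine IsIntegral.of_pow (Nat.pos_of_ne_zero hn0) ?_
      rw [hζ]; exact isIntegral_one
    have : Function.Injective (φ.restrictScalars ℤ) := φ.toRingHom.injective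
    exact (isIntegral_algHom_iff (φ.restrictScalars ℤ) this).mp (by
      show IsIntegral ℤ (φ α)
      rw [hα]; exact hζint)
  have hmem : α ∈ Algebra.adjoin ℤ {AdjoinRoot.root (f.map (Int.castRingHom ℚ))} := by
    rw [hmono]; exact hαint
  rw [Algebra.adjoin_singleton_eq_range_aeval] at hmem
  obtain ⟨g, hg⟩ := hmem
  refine not_eval hn ζ hζ (by rw [← hzζ]; exact hz0) g ?_
  rw [← hzζ, ← hφZ, ← hα]
  congr 1

lemma monogenic_X : IsMonogenic X := by
  unfold IsMonogenic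
  have hroot : AdjoinRoot.root ((X : ℤ[X]).map (Int.castRingHom ℚ)) = 0 := by
    have := AdjoinRoot.eval₂_root ((X : ℤ[X]).map (Int.castRingHom ℚ))
    simpa using this
  apply le_antisymm
  · rw [Algebra.adjoin_le_iff, Set.singleton_subset_iff]
    show IsIntegral ℤ _
    rw [hroot]
    exact isIntegral_zero
  · intro x hx
    have hx' : IsIntegral ℤ x := hx
    obtain ⟨p, rfl⟩ := AdjoinRoot.mk_surjective x
    have hp : AdjoinRoot.mk ((X : ℤ[X]).map (Int.castRingHom ℚ)) p =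
        algebraMap ℚ _ (p.coeff 0) := by
      conv_lhs => rw [← divX_mul_X_add p]
      rw [map_add, map_mul, AdjoinRoot.mk_X, hroot, mul_zero, zero_add]
      rfl
    have hnt : Nontrivial (AdjoinRoot ((X : ℤ[X]).map (Int.castRingHom ℚ))) := by
      refine AdjoinRoot.nontrivial _ ?_
      simp
    rw [hp] at hx' ⊢
    have hq : IsIntegral ℤ (p.coeff 0) :=
      (isIntegral_algebraMap_iff (FaithfulSMul.algebraMap_injective ℚ _)).mp hx'
    obtain ⟨m, hm⟩ := IsIntegrallyClosed.isIntegral_iff.mp hq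
    rw [← hm, ← IsScalarTower.algebraMap_apply]
    exact Subalgebra.algebraMap_mem _ m

lemma exists_bad_factor {n : ℕ} (hn : Odd n) (h1 : n ≠ 1) :
    ∃ f : ℤ[X], f.Monic ∧ Irreducible f ∧ f ∣ lucas n ∧ f ≠ X := by
  have hn0 : n ≠ 0 := by rintro rfl; simp at hn
  have hprim := Complex.isPrimitiveRoot_exp n hn0
  generalize Complex.exp (2 * Real.pi * Complex.I / n) = ζ at hprim
  have hζ : ζ ^ n = 1 := hprim.pow_eq_one
  have hζ0 : ζ ≠ 0 := by rintro rfl; simp [hn0] at hζ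
  have hζint : IsIntegral ℤ ζ := by
    refine IsIntegral.of_pow (Nat.pos_of_ne_zero hn0) ?_
    rw [hζ]; exact isIntegral_one
  have hζiint : IsIntegral ℤ ζ⁻¹ := by
    refine IsIntegral.of_pow (Nat.pos_of_ne_zero hn0) ?_
    rw [inv_pow, hζ, inv_one]; exact isIntegral_one
  have hzint : IsIntegral ℤ (ζ - ζ⁻¹) := hζint.sub hζiint
  have hz0 : ζ - ζ⁻¹ ≠ 0 := by
    intro h
    have h2 : ζ ^ 2 = 1 := by
      have : ζ * ζ⁻¹ = 1 := mul_inv_cancel₀ hζ0
      linear_combination ζ * h + this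
    have h3 : n ∣ 2 := hprim.dvd_of_pow_eq_one 2 h2
    have h4 : n ≤ 2 := Nat.le_of_dvd (by norm_num) h3
    obtain ⟨r, hr⟩ := hn
    omega
  have hL : aeval (ζ - ζ⁻¹) (lucas n) = 0 := by
    rw [aeval_lucas ζ hζ0, hn.neg_pow, inv_pow, hζ]; norm_num
  refine ⟨minpoly ℤ (ζ - ζ⁻¹), minpoly.monic hzint, minpoly.irreducible hzint,
    minpoly.isIntegrallyClosed_dvd hzint hL, ?_⟩
  intro h
  have h5 := minpoly.aeval ℤ (ζ - ζ⁻¹)
  rw [h, aeval_X] at h5
  exact hz0 h5

/-- For odd `n`, a monic irreducible factor of the Lucas polynomial `L_n` is monogenic exactly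
when it is `X`; and every monic irreducible factor of `L_n` is monogenic exactly when `n = 1`. -/
theorem result (n : ℕ) (hn : Odd n) :
    (∀ f : ℤ[X], f.Monic → Irreducible f → f ∣ lucas n → (IsMonogenic f ↔ f = X)) ∧
    ((∀ f : ℤ[X], f.Monic → Irreducible f → f ∣ lucas n → IsMonogenic f) ↔ n = 1) := by
  have h1 : ∀ f : ℤ[X], f.Monic → Irreducible f → f ∣ lucas n → (IsMonogenic f ↔ f = X) := by
    intro f hf hirr hdvd
    constructor
    · intro h
      by_contra hX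
      exact not_monogenic hn hf hirr hdvd hX h
    · rintro rfl
      exact monogenic_X
  refine ⟨h1, ?_, ?_⟩
  · intro h
    by_contra hne
    obtain ⟨f, hf, hirr, hdvd, hX⟩ := exists_bad_factor hn hne
    exact not_monogenic hn hf hirr hdvd hX (h f hf hirr hdvd)
  · rintro rfl f hf hirr hdvd
    rw [h1 f hf hirr hdvd]
    have hdvd' : f ∣ X := hdvd
    have hass : Associated f (X : ℤ[X]) := hirr.associated_of_dvd irreducible_X hdvd'
    exact eq_of_monic_of_associated hf monic_X hass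

end Pool.Agent.Results.MP_14f819_nt.OddIndexClassification
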